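import Pool.Agent.Lib.MP_715eb0_an.SI.Spec

/-!
# MP_715eb0_an, module AVG: averages over the group of the residues `2^i 3^j`
-/

set_option autoImplicit false

open MeasureTheory Finset Polynomial

namespace Pool.Agent.Lib.MP_715eb0_an.SI

namespace AVGM

lemma mod_nsmul {q : ℕ} {z : T} (hz : q • z = 0) (n : ℕ) : (n % q) • z = n • z := by
  conv_rhs => rw [← Nat.mod_add_div n q]
  rw [add_nsmul, mul_nsmul, hz, nsmul_zero, add_zero]

lemma order_dvd {q : ℕ} {z : T} (hz : q • z = 0) : addOrderOf z ∣ q :=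
  addOrderOf_dvd_of_nsmul_eq_zero hz

lemma coprime_order {q : ℕ} (hq : q.Coprime 6) {z : T} (hz : q • z = 0) :
    (addOrderOf z).Coprime 6 := Nat.Coprime.coprime_dvd_left (order_dvd hz) hq

lemma first {q : ℕ} (hq : q.Coprime 6) {z : T} (hz : q • z = 0) (F : T → ℂ) (i j : ℕ) :
    ∑ r ∈ R q, F (r • ((2 ^ i * 3 ^ j) • z)) = ∑ r ∈ R q, F (r • z) := by
  have hq0 := pos_of_coprime hq
  set s := 2 ^ i * 3 ^ j with hs
  have hcop : s.Coprime q := coprime_two_three hq i j
  have hmaps : Set.MapsTo (fun r => r * s % q) (R q : Set ℕ) (R q : Set ℕ) := by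
    intro r hr
    obtain ⟨i', j', h⟩ := (mem_R hq0).mp (mem_coe.1 hr)
    refine mem_coe.2 ((mem_R hq0).mpr ⟨i' + i, j' + j, ?_⟩)
    show 2 ^ (i' + i) * 3 ^ (j' + j) % q = r * s % q
    have e : 2 ^ (i' + i) * 3 ^ (j' + j) = (2 ^ i' * 3 ^ j') * s := by
      rw [hs, pow_add, pow_add]
      ring
    rw [e, ← h, Nat.mod_mul_mod]
  have hinj : Set.InjOn (fun r => r * s % q) (R q : Set ℕ) := by
    intro r hr r' hr' h
    have h' : r * s % q = r' * s % q := h
    have h1 : r ≡ r' [MOD q] := Nat.ModEq.cancel_right_of_coprime (by rwa [Nat.coprime_comm] at hcop) h'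
    have hr1 : r < q := by
      have := mem_coe.1 hr
      simp only [R, mem_filter, mem_range] at this
      exact this.1
    have hr2 : r' < q := by
      have := mem_coe.1 hr'
      simp only [R, mem_filter, mem_range] at this
      exact this.1
    exact Nat.ModEq.eq_of_lt_of_lt h1 hr1 hr2
  refine Finset.sum_nbij (fun r => r * s % q) (fun r hr => mem_coe.1 (hmaps (mem_coe.2 hr))) hinj
    (Finset.surjOn_of_injOn_of_card_le _ hmaps hinj le_rfl) ?_
  intro r _
  show F (r • (s • z)) = F ((r * s % q) • z)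
  have e : (r * s) • z = r • (s • z) := by
    rw [← mul_nsmul, mul_comm]
  rw [mod_nsmul hz, e]

lemma second {q : ℕ} (hq : q.Coprime 6) {z : T} (hz : q • z = 0) (F : T → ℂ) {r : ℕ}
    (hr : r ∈ R q) : ∑ w ∈ Orb z, F (r • w) = ∑ w ∈ Orb z, F w := by
  have hq0 := pos_of_coprime hq
  have hz6 := coprime_order hq hz
  obtain ⟨i, j, h⟩ := (mem_R hq0).mp hr
  have hw : ∀ w ∈ Orb z, q • w = 0 := by
    intro w hw
    obtain ⟨a, b, rfl⟩ := (mem_Orb (pos_of_coprime hz6)).mp hw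
    rw [← mul_nsmul, mul_comm, mul_nsmul, hz, nsmul_zero]
  have hrw : ∀ w ∈ Orb z, r • w = (2 ^ i * 3 ^ j) • w := by
    intro w hw1
    rw [← h, mod_nsmul (hw w hw1)]
  have hmaps : Set.MapsTo (fun w : T => r • w) (Orb z : Set T) (Orb z : Set T) := by
    intro w hw1
    have hw1' := mem_coe.1 hw1
    refine mem_coe.2 ?_
    show r • w ∈ Orb z
    rw [hrw w hw1']
    refine mem_Orb_trans hz6 hw1' ((mem_Orb ?_).mpr ⟨i, j, rfl⟩)
    rw [order_of_mem_Orb hz6 hw1']
    exact pos_of_coprime hz6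
  have hinj : Set.InjOn (fun w : T => r • w) (Orb z : Set T) := by
    intro w hw1 w' hw2 h1
    have h2 : r • w = r • w' := h1
    have hw1' := mem_coe.1 hw1
    have hw2' := mem_coe.1 hw2
    rw [hrw w hw1', hrw w' hw2'] at h2
    have h3 : (2 ^ i * 3 ^ j) • (w - w') = 0 := by
      rw [nsmul_sub, h2, sub_self]
    have h4 : q • (w - w') = 0 := by
      rw [nsmul_sub, hw w hw1', hw w' hw2', sub_self]
    have h5 : addOrderOf (w - w') = 1 :=
      Nat.eq_one_of_dvd_coprimes (coprime_two_three hq i j)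
        (addOrderOf_dvd_of_nsmul_eq_zero h3) (addOrderOf_dvd_of_nsmul_eq_zero h4)
    rw [AddMonoid.addOrderOf_eq_one_iff] at h5
    exact sub_eq_zero.1 h5
  exact Finset.sum_nbij (fun w : T => r • w) (fun w hw1 => mem_coe.1 (hmaps (mem_coe.2 hw1))) hinj
    (Finset.surjOn_of_injOn_of_card_le _ hmaps hinj le_rfl) (fun w _ => rfl)

end AVGM

open AVGM in
theorem specAVG : SpecAVG := by
  intro q hq z hz F
  have hz6 := coprime_order hq hz
  have h1 : ∑ w ∈ Orb z, ∑ r ∈ R q, F (r • w) = ((Orb z).card : ℂ) * ∑ r ∈ R q, F (r • z) := by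
    rw [Finset.sum_congr rfl (g := fun _ => ∑ r ∈ R q, F (r • z)), Finset.sum_const, nsmul_eq_mul]
    intro w hw
    obtain ⟨i, j, rfl⟩ := (mem_Orb (pos_of_coprime hz6)).mp hw
    exact first hq hz F i j
  have h2 : ∑ r ∈ R q, ∑ w ∈ Orb z, F (r • w) = (cnt q : ℂ) * ∑ w ∈ Orb z, F w := by
    rw [Finset.sum_congr rfl (g := fun _ => ∑ w ∈ Orb z, F w), Finset.sum_const, nsmul_eq_mul]
    · rfl
    · intro r hr
      exact second hq hz F hr
  rw [← h1, ← h2, Finset.sum_comm]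

end Pool.Agent.Lib.MP_715eb0_an.SI
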