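import Pool.Agent.Lib.MP_715eb0_an.SI.Spec

/-!
# MP_715eb0_an: the second moment (module MOM)
-/

set_option autoImplicit false

open MeasureTheory Finset Polynomial

namespace Pool.Agent.Lib.MP_715eb0_an.SI

namespace MOMM

/-- The order of a point killed by `q` is prime to `6`. -/
lemma cop {q : ℕ} (hq : q.Coprime 6) {z : T} (hz : q • z = 0) : (addOrderOf z).Coprime 6 :=
  Nat.Coprime.coprime_dvd_left (addOrderOf_dvd_of_nsmul_eq_zero hz) hq

/-- The Fourier coefficient of an orbit as a mean over `R q`. -/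
lemma integral_eq (hAVG : SpecAVG) {q : ℕ} (hq : q.Coprime 6) {z : T} (hz : q • z = 0) (m : ℤ) :
    ∫ t, (fourier m t : ℂ) ∂(U (Orb z)) =
      (cnt q : ℂ)⁻¹ * ∑ r ∈ R q, (fourier m (r • z) : ℂ) := by
  have hc : ((Orb z).card : ℂ) ≠ 0 := by
    have := (Orb_nonempty (cop hq hz)).card_pos
    exact_mod_cast this.ne'
  have hN : (cnt q : ℂ) ≠ 0 := by
    have := cnt_pos (pos_of_coprime hq)
    exact_mod_cast this.ne'
  have h := hAVG q hq z hz (fun w => (fourier m w : ℂ))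
  have h2 := integral_U (S := Orb z) (fourier m : C(T, ℂ))
  rw [h2]
  have h3 : ∑ w ∈ Orb z, (fourier m w : ℂ) =
      (cnt q : ℂ)⁻¹ * (((Orb z).card : ℂ) * ∑ r ∈ R q, (fourier m (r • z) : ℂ)) := by
    rw [h, ← mul_assoc, inv_mul_cancel₀ hN, one_mul]
  rw [h3, ← mul_assoc, ← mul_assoc, mul_comm ((Orb z).card : ℂ)⁻¹,
    mul_assoc (cnt q : ℂ)⁻¹, inv_mul_cancel₀ hc, mul_one]

/-- The character at `r • (y + n • x)`. -/
lemma char_eq (m n : ℤ) (r : ℕ) (x y : T) :
    (fourier m (r • (y + n • x)) : ℂ) =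
      (fourier m (r • y) : ℂ) * (fourier n (r • (m • x)) : ℂ) := by
  rw [smul_add, fourier_apply, fourier_apply, fourier_apply, smul_add, AddCircle.toCircle_add,
    Circle.coe_mul]
  have h : m • (r • (n • x)) = n • (r • (m • x)) := by
    rw [smul_comm m r, smul_comm n r, smul_comm m n]
  rw [h]

/-- The number of `r` in `R q` with `r • x` near `c`. -/
lemma count_le (hAVG : SpecAVG) {q : ℕ} (hq : q.Coprime 6) {x : T} (hx : q • x = 0) (c : T)
    (ρ ε' : ℝ)
    (h : ((Set.ncard {z : T | z ∈ Orb x ∧ dist z c ≤ ρ} : ℕ) : ℝ) ≤ ε' * (Orb x).card) :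
    (((R q).filter (fun r => dist (r • x) c ≤ ρ)).card : ℝ) ≤ ε' * cnt q := by
  classical
  have hc : 0 < ((Orb x).card : ℝ) := by
    have := (Orb_nonempty (cop hq hx)).card_pos
    exact_mod_cast this
  have h1 := hAVG q hq x hx (fun w => if dist w c ≤ ρ then 1 else 0)
  have h2 : ∑ r ∈ R q, (if dist (r • x) c ≤ ρ then (1 : ℂ) else 0) =
      (((R q).filter (fun r => dist (r • x) c ≤ ρ)).card : ℂ) := by
    rw [← sum_filter, sum_const, nsmul_eq_mul, mul_one]
  have h3 : ∑ w ∈ Orb x, (if dist w c ≤ ρ then (1 : ℂ) else 0) =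
      (((Orb x).filter (fun w => dist w c ≤ ρ)).card : ℂ) := by
    rw [← sum_filter, sum_const, nsmul_eq_mul, mul_one]
  have h1' : ((Orb x).card : ℂ) * ∑ r ∈ R q, (if dist (r • x) c ≤ ρ then (1 : ℂ) else 0) =
      (cnt q : ℂ) * ∑ w ∈ Orb x, (if dist w c ≤ ρ then (1 : ℂ) else 0) := h1
  rw [h2, h3] at h1'
  have h4 : ((Orb x).card : ℝ) * ((R q).filter (fun r => dist (r • x) c ≤ ρ)).card =
      (cnt q : ℝ) * ((Orb x).filter (fun w => dist w c ≤ ρ)).card := by
    exact_mod_cast h1'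
  have h5 : {z : T | z ∈ Orb x ∧ dist z c ≤ ρ} =
      (((Orb x).filter (fun w => dist w c ≤ ρ) : Finset T) : Set T) := by
    ext z
    simp
  rw [h5, Set.ncard_coe_finset] at h
  have h6 : ((Orb x).card : ℝ) * ((R q).filter (fun r => dist (r • x) c ≤ ρ)).card ≤
      ((Orb x).card : ℝ) * (ε' * cnt q) := by
    rw [h4]
    calc (cnt q : ℝ) * ((Orb x).filter (fun w => dist w c ≤ ρ)).card
        ≤ (cnt q : ℝ) * (ε' * (Orb x).card) := mul_le_mul_of_nonneg_left h (Nat.cast_nonneg _)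
      _ = ((Orb x).card : ℝ) * (ε' * cnt q) := by ring
  exact le_of_mul_le_mul_left h6 hc

/-- `E(θ)`. -/
noncomputable def E (P : ℤ[X]) (H : ℕ) (θ : T) : ℂ :=
  ∑ k ∈ range H, (fourier (P.eval (k : ℤ)) θ : ℂ)

lemma norm_E_le (P : ℤ[X]) (H : ℕ) (θ : T) : ‖E P H θ‖ ≤ H := by
  unfold E
  refine (norm_sum_le _ _).trans ?_
  have : ∀ k ∈ range H, ‖(fourier (P.eval (k : ℤ)) θ : ℂ)‖ ≤ 1 := by
    intro k _
    rw [fourier_apply, Circle.norm_coe]
  refine (sum_le_sum this).trans ?_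
  simp

/-- One row of the double sum. -/
lemma row (hAVG : SpecAVG) {q : ℕ} (hq : q.Coprime 6) {x : T} (hx : q • x = 0) (P : ℤ[X]) (H : ℕ)
    (κ C ε' : ℝ) (hκ : 0 ≤ κ) (Y : Finset T)
    (hY : ∀ θ : T, κ * H ≤ ‖E P H θ‖ → ∃ y ∈ Y, dist θ y ≤ C / H)
    (hA : ∀ c : T, ((Set.ncard {z : T | z ∈ Orb x ∧ dist z c ≤ C / H} : ℕ) : ℝ) ≤
      ε' * (Orb x).card) (c : T) :
    ∑ r ∈ R q, ‖E P H (r • x - c)‖ ≤ cnt q * (κ * H + Y.card * ε' * H) := by
  classical
  have h1 : ∀ r ∈ R q, ‖E P H (r • x - c)‖ ≤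
      κ * H + ∑ y ∈ Y, (if dist (r • x) (c + y) ≤ C / H then (H : ℝ) else 0) := by
    intro r _
    have hs : 0 ≤ ∑ y ∈ Y, (if dist (r • x) (c + y) ≤ C / H then (H : ℝ) else 0) := by
      apply sum_nonneg
      intro y _
      split_ifs
      · exact Nat.cast_nonneg _
      · exact le_rfl
    rcases lt_or_ge ‖E P H (r • x - c)‖ (κ * H) with h | h
    · linarith
    · obtain ⟨y, hyY, hy⟩ := hY _ h
      have hd : dist (r • x) (c + y) ≤ C / H := by
        have : dist (r • x - c) y = dist (r • x) (c + y) := by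
          rw [dist_eq_norm, dist_eq_norm, sub_sub]
        rw [← this]; exact hy
      have h2 : (if dist (r • x) (c + y) ≤ C / H then (H : ℝ) else 0) ≤
          ∑ y ∈ Y, (if dist (r • x) (c + y) ≤ C / H then (H : ℝ) else 0) := by
        apply single_le_sum (f := fun y => (if dist (r • x) (c + y) ≤ C / H then (H : ℝ) else 0))
        · intro y _
          split_ifs
          · exact Nat.cast_nonneg _
          · exact le_rfl
        · exact hyY
      rw [if_pos hd] at h2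
      have h3 := norm_E_le P H (r • x - c)
      have h4 : 0 ≤ κ * (H : ℝ) := mul_nonneg hκ (Nat.cast_nonneg _)
      linarith
  refine (sum_le_sum h1).trans ?_
  rw [sum_add_distrib, sum_const, nsmul_eq_mul, sum_comm]
  have h5 : ∀ y ∈ Y, ∑ r ∈ R q, (if dist (r • x) (c + y) ≤ C / H then (H : ℝ) else 0) ≤
      ε' * cnt q * H := by
    intro y _
    rw [← sum_filter, sum_const, nsmul_eq_mul]
    exact mul_le_mul_of_nonneg_right (count_le hAVG hq hx (c + y) _ ε' (hA (c + y)))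
      (Nat.cast_nonneg _)
  have h6 := sum_le_sum h5
  rw [sum_const, nsmul_eq_mul] at h6
  have h7 : ((R q).card : ℝ) = cnt q := rfl
  rw [h7]
  calc (cnt q : ℝ) * (κ * H) + ∑ y ∈ Y, ∑ r ∈ R q,
        (if dist (r • x) (c + y) ≤ C / H then (H : ℝ) else 0)
      ≤ (cnt q : ℝ) * (κ * H) + Y.card * (ε' * cnt q * H) := by linarith
    _ = cnt q * (κ * H + Y.card * ε' * H) := by ring

/-- The second moment is bounded by the double sum. -/
lemma square (hEXP : SpecEXP) (hAVG : SpecAVG) {q : ℕ} (hq : q.Coprime 6) {x y : T}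
    (hx : q • x = 0) (hy : q • y = 0) (P : ℤ[X]) (m : ℤ) (H : ℕ) :
    ∑ k ∈ range H, ‖∫ t, (fourier m t : ℂ) ∂(U (Orb (y + P.eval (k : ℤ) • x)))‖ ^ 2 ≤
      ((cnt q : ℝ)⁻¹) ^ 2 * ∑ p' ∈ R q, ∑ p ∈ R q, ‖E P H (p • (m • x) - p' • (m • x))‖ := by
  have h1 : ∀ k ∈ range H,
      ‖∫ t, (fourier m t : ℂ) ∂(U (Orb (y + P.eval (k : ℤ) • x)))‖ ^ 2 =
        ((cnt q : ℝ)⁻¹) ^ 2 * ‖∑ r ∈ R q, (fourier m (r • y) : ℂ) *
          (fourier (P.eval (k : ℤ)) (r • (m • x)) : ℂ)‖ ^ 2 := by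
    intro k _
    have hz : q • (y + P.eval (k : ℤ) • x) = 0 := by
      rw [smul_add, hy, smul_comm, hx, smul_zero, add_zero]
    rw [integral_eq hAVG hq hz m, norm_mul, mul_pow, norm_inv, Complex.norm_natCast]
    have h2 : ∑ r ∈ R q, (fourier m (r • (y + P.eval (k : ℤ) • x)) : ℂ) =
        ∑ r ∈ R q, (fourier m (r • y) : ℂ) *
          (fourier (P.eval (k : ℤ)) (r • (m • x)) : ℂ) :=
      sum_congr rfl (fun r _ => char_eq m _ r x y)
    rw [h2]
  rw [sum_congr rfl h1, ← mul_sum]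
  apply mul_le_mul_of_nonneg_left _ (by positivity)
  have h3 := hEXP ℕ (R q) (fun r => r • (m • x)) (fun r => (fourier m (r • y) : ℂ))
    (fun k => P.eval (k : ℤ)) H (by
      intro p _
      show ‖(fourier m (p • y) : ℂ)‖ ≤ 1
      rw [fourier_apply, Circle.norm_coe])
  refine h3.trans (le_of_eq ?_)
  rw [sum_comm]
  rfl

end MOMM

open MOMM in
theorem specMOM (hARC : NC.SpecARC) (hCOV : SpecCOV) (hEXP : SpecEXP) (hAVG : SpecAVG) :
    SpecMOM := by
  classical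
  intro P m δ η hP hm hδ hη
  obtain ⟨Y, C, hC, hY⟩ := hCOV P (δ / 2) hP (by linarith)
  obtain ⟨q₁, hq₁⟩ := hARC (δ / (2 * Y.card + 2)) (η / 2) (by positivity) (by linarith)
  refine ⟨max (m.natAbs * q₁) (⌈C ^ (2 / η)⌉₊ + 1), ?_⟩
  intro x y hx hq hy H hH
  set q := addOrderOf x with hqdef
  have hq0 : 0 < q := pos_of_coprime hx
  have hqR : (0 : ℝ) < q := by exact_mod_cast hq0
  have hHpos : (0 : ℝ) < H := lt_of_lt_of_le (Real.rpow_pos_of_pos hqR η) hH
  have hH1 : 1 ≤ H := by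
    have : 0 < H := by exact_mod_cast hHpos
    exact this
  have hqx : q • x = 0 := addOrderOf_nsmul_eq_zero x
  have hqx' : q • (m • x) = 0 := by rw [smul_comm, hqx, smul_zero]
  set x' := m • x with hx'
  set d := addOrderOf x' with hd
  have hdq : d ∣ q := addOrderOf_dvd_of_nsmul_eq_zero hqx'
  have hdle : d ≤ q := Nat.le_of_dvd hq0 hdq
  have hdcop : d.Coprime 6 := Nat.Coprime.coprime_dvd_left hdq hx
  have hd0 : 0 < d := pos_of_coprime hdcop
  have hmpos : 0 < m.natAbs := Int.natAbs_pos.mpr hm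
  have hqd : q ≤ d * m.natAbs := by
    have h0 : (d * m.natAbs) • x = 0 := by
      have h1 : d • x' = 0 := addOrderOf_nsmul_eq_zero x'
      have h2 : ((d : ℤ) * m) • x = 0 := by
        rw [mul_smul, natCast_zsmul]
        exact h1
      rcases Int.natAbs_eq m with h | h
      · have h3 : ((d * m.natAbs : ℕ) : ℤ) • x = 0 := by
          push_cast
          rw [← Int.natCast_natAbs, ← h]
          exact h2
        rw [natCast_zsmul] at h3
        exact h3
      · have h3 : ((d * m.natAbs : ℕ) : ℤ) • x = 0 := by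
          have h4 : ((d * m.natAbs : ℕ) : ℤ) = -((d : ℤ) * m) := by
            rw [Nat.cast_mul]
            have : (m.natAbs : ℤ) = -m := by rw [h]; simp
            rw [this]; ring
          rw [h4, neg_smul, h2, neg_zero]
        rw [natCast_zsmul] at h3
        exact h3
    exact Nat.le_of_dvd (Nat.mul_pos hd0 hmpos) (addOrderOf_dvd_of_nsmul_eq_zero h0)
  have hq₁d : q₁ ≤ d := by
    have h1 : m.natAbs * q₁ ≤ m.natAbs * d := by
      calc m.natAbs * q₁ ≤ q := (le_max_left _ _).trans hq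
        _ ≤ d * m.natAbs := hqd
        _ = m.natAbs * d := mul_comm _ _
    exact Nat.le_of_mul_le_mul_left h1 hmpos
  have hrad : C / H ≤ (d : ℝ) ^ (-(η / 2)) := by
    have hqC : C ^ (2 / η) ≤ q := by
      have h1 : ⌈C ^ (2 / η)⌉₊ + 1 ≤ q := (le_max_right _ _).trans hq
      have h2 : C ^ (2 / η) ≤ (⌈C ^ (2 / η)⌉₊ : ℝ) := Nat.le_ceil _
      have h3 : ((⌈C ^ (2 / η)⌉₊ + 1 : ℕ) : ℝ) ≤ q := by exact_mod_cast h1
      push_cast at h3
      linarith
    have hCq : C ≤ (q : ℝ) ^ (η / 2) := by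
      have h1 : (C ^ (2 / η)) ^ (η / 2) ≤ (q : ℝ) ^ (η / 2) :=
        Real.rpow_le_rpow (Real.rpow_nonneg hC.le _) hqC (by linarith)
      rw [← Real.rpow_mul hC.le] at h1
      have h2 : 2 / η * (η / 2) = 1 := by field_simp
      rw [h2, Real.rpow_one] at h1
      exact h1
    have h3 : C / H ≤ (q : ℝ) ^ (-(η / 2)) := by
      rw [div_le_iff₀ hHpos]
      calc C ≤ (q : ℝ) ^ (η / 2) := hCq
        _ = (q : ℝ) ^ (-(η / 2)) * (q : ℝ) ^ η := by
            rw [← Real.rpow_add hqR]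
            congr 1
            ring
        _ ≤ (q : ℝ) ^ (-(η / 2)) * H :=
            mul_le_mul_of_nonneg_left hH (Real.rpow_nonneg hqR.le _)
    refine h3.trans ?_
    have hdR : (0 : ℝ) < d := by exact_mod_cast hd0
    have hdleR : (d : ℝ) ≤ q := by exact_mod_cast hdle
    exact Real.rpow_le_rpow_of_nonpos hdR hdleR (by linarith)
  have hA : ∀ c : T, ((Set.ncard {z : T | z ∈ Orb x' ∧ dist z c ≤ C / H} : ℕ) : ℝ) ≤
      δ / (2 * Y.card + 2) * (Orb x').card := by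
    intro c
    refine le_trans ?_ (hq₁ x' hdcop hq₁d c)
    have hsub : {z : T | z ∈ Orb x' ∧ dist z c ≤ C / H} ⊆
        {z : T | z ∈ Orb x' ∧ dist z c ≤ (addOrderOf x' : ℝ) ^ (-(η / 2))} := by
      intro z hz
      exact ⟨hz.1, hz.2.trans hrad⟩
    have hfin : {z : T | z ∈ Orb x' ∧ dist z c ≤ (addOrderOf x' : ℝ) ^ (-(η / 2))}.Finite :=
      (Orb x').finite_toSet.subset (fun z hz => hz.1)
    exact_mod_cast Set.ncard_le_ncard hsub hfin
  have hrow : ∀ p' ∈ R q, ∑ p ∈ R q, ‖E P H (p • x' - p' • x')‖ ≤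
      cnt q * (δ / 2 * H + Y.card * (δ / (2 * Y.card + 2)) * H) := by
    intro p' _
    exact row hAVG hx hqx' P H (δ / 2) C (δ / (2 * Y.card + 2)) (by linarith) Y
      (fun θ hθ => hY θ H hH1 hθ) hA (p' • x')
  have hsq := square hEXP hAVG hx hqx hy P m H
  refine hsq.trans ?_
  have hN : (0 : ℝ) < cnt q := by exact_mod_cast cnt_pos hq0
  have h1 := sum_le_sum hrow
  rw [sum_const, nsmul_eq_mul] at h1
  have h2 : ((R q).card : ℝ) = cnt q := rfl
  rw [h2] at h1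
  calc ((cnt q : ℝ)⁻¹) ^ 2 * ∑ p' ∈ R q, ∑ p ∈ R q, ‖E P H (p • x' - p' • x')‖
      ≤ ((cnt q : ℝ)⁻¹) ^ 2 * ((cnt q : ℝ) *
          (cnt q * (δ / 2 * H + Y.card * (δ / (2 * Y.card + 2)) * H))) :=
        mul_le_mul_of_nonneg_left h1 (by positivity)
    _ = δ / 2 * H + Y.card * (δ / (2 * Y.card + 2)) * H := by
        field_simp
    _ ≤ δ * H := by
        have h3 : (Y.card : ℝ) * (δ / (2 * Y.card + 2)) ≤ δ / 2 := by
          rw [mul_div_assoc', div_le_div_iff₀ (by positivity) (by norm_num)]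
          nlinarith [Nat.cast_nonneg (α := ℝ) Y.card]
        nlinarith

end Pool.Agent.Lib.MP_715eb0_an.SI
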