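import Pool.Agent.Lib.MP_715eb0_an.SI.Spec

/-!
# TRG: finitely many Fourier coefficients
-/

set_option autoImplicit false

open MeasureTheory Finset Polynomial

namespace Pool.Agent.Lib.MP_715eb0_an.SI

namespace TRGM

/-- the linear functional `∫ P dμ - ∫ P dλ` is controlled by finitely many Fourier coefficients -/
def Ctl (P : C(T, ℂ)) : Prop :=
  ∃ (M : ℕ) (C : ℝ), 0 ≤ C ∧ ∀ (τ : ℝ), 0 ≤ τ → ∀ μ : Measure T, IsProbabilityMeasure μ →
    (∀ m : ℤ, m ≠ 0 → |m| ≤ M → ‖∫ x, (fourier m x : ℂ) ∂μ‖ ≤ τ) →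
    ‖(∫ x, P x ∂μ) - ∫ t in (0 : ℝ)..1, P ((t : ℝ) : T)‖ ≤ C * τ

lemma intg (g : C(T, ℂ)) (μ : Measure T) [IsProbabilityMeasure μ] :
    Integrable (fun x => g x) μ :=
  g.continuous.integrable_of_hasCompactSupport (HasCompactSupport.of_compactSpace _)

lemma intg2 (g : C(T, ℂ)) : IntervalIntegrable (fun t : ℝ => g ((t : ℝ) : T)) volume 0 1 :=
  (cont_coe g).intervalIntegrable _ _

lemma ctl_fourier (k : ℤ) : Ctl (fourier k) := by
  refine ⟨k.natAbs, 1, zero_le_one, fun τ hτ μ hμ h => ?_⟩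
  by_cases hk : k = 0
  · subst hk
    have h0 : ‖(∫ x, (fourier 0 x : ℂ) ∂μ) - ∫ t in (0 : ℝ)..1, (fourier 0 ((t : ℝ) : T) : ℂ)‖ = 0 := by
      simp
    rw [h0]
    linarith
  · rw [integral_fourier hk, sub_zero, one_mul]
    refine h k hk ?_
    rw [Int.natCast_natAbs]

lemma ctl_zero : Ctl 0 := by
  refine ⟨0, 0, le_refl _, fun τ hτ μ hμ h => ?_⟩
  simp

lemma ctl_add {P Q : C(T, ℂ)} (hP : Ctl P) (hQ : Ctl Q) : Ctl (P + Q) := by
  obtain ⟨M, C, hC, h1⟩ := hP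
  obtain ⟨N, D, hD, h2⟩ := hQ
  refine ⟨max M N, C + D, add_nonneg hC hD, fun τ hτ μ hμ h => ?_⟩
  have e1 : ∫ x, (P + Q) x ∂μ = ∫ x, P x ∂μ + ∫ x, Q x ∂μ := by
    simp only [ContinuousMap.add_apply]
    exact integral_add (intg P μ) (intg Q μ)
  have e2 : ∫ t in (0 : ℝ)..1, (P + Q) ((t : ℝ) : T) =
      (∫ t in (0 : ℝ)..1, P ((t : ℝ) : T)) + ∫ t in (0 : ℝ)..1, Q ((t : ℝ) : T) := by
    simp only [ContinuousMap.add_apply]
    exact intervalIntegral.integral_add (intg2 P) (intg2 Q)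
  rw [e1, e2, add_sub_add_comm, add_mul]
  refine (norm_add_le _ _).trans (add_le_add (h1 τ hτ μ hμ fun m hm hmM => h m hm ?_)
    (h2 τ hτ μ hμ fun m hm hmM => h m hm ?_))
  · exact hmM.trans (by exact_mod_cast le_max_left M N)
  · exact hmM.trans (by exact_mod_cast le_max_right M N)

lemma ctl_smul (c : ℂ) {P : C(T, ℂ)} (hP : Ctl P) : Ctl (c • P) := by
  obtain ⟨M, C, hC, h1⟩ := hP
  refine ⟨M, ‖c‖ * C, mul_nonneg (norm_nonneg _) hC, fun τ hτ μ hμ h => ?_⟩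
  have e1 : ∫ x, (c • P) x ∂μ = c • ∫ x, P x ∂μ := by
    simp only [ContinuousMap.smul_apply]
    exact integral_smul c _
  have e2 : ∫ t in (0 : ℝ)..1, (c • P) ((t : ℝ) : T) = c • ∫ t in (0 : ℝ)..1, P ((t : ℝ) : T) := by
    simp only [ContinuousMap.smul_apply]
    exact intervalIntegral.integral_smul c _
  rw [e1, e2, ← smul_sub, norm_smul, mul_assoc]
  exact mul_le_mul_of_nonneg_left (h1 τ hτ μ hμ h) (norm_nonneg _)

lemma ctl_span (P : C(T, ℂ)) (hP : P ∈ Submodule.span ℂ (Set.range (@fourier (1 : ℝ)))) :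
    Ctl P := by
  induction hP using Submodule.span_induction with
  | mem P h =>
    obtain ⟨k, rfl⟩ := h
    exact ctl_fourier k
  | zero => exact ctl_zero
  | add P Q _ _ hP hQ => exact ctl_add hP hQ
  | smul c P _ hP => exact ctl_smul c hP

end TRGM

open TRGM in
theorem specTRG : SpecTRG := by
  intro f ε hε
  set g : C(T, ℂ) := ⟨fun x => (f x : ℂ), Complex.continuous_ofReal.comp f.continuous⟩ with hg
  have hcl : g ∈ closure ((Submodule.span ℂ (Set.range (@fourier (1 : ℝ))) :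
      Submodule ℂ C(T, ℂ)) : Set C(T, ℂ)) := by
    have := span_fourier_closure_eq_top (T := (1 : ℝ))
    have h2 : g ∈ (Submodule.span ℂ (Set.range (@fourier (1 : ℝ)))).topologicalClosure := by
      rw [this]; trivial
    exact h2
  obtain ⟨P, hP, hgP⟩ := Metric.mem_closure_iff.mp hcl (ε / 3) (by positivity)
  obtain ⟨M, C, hC, hctl⟩ := ctl_span P hP
  have hτ : 0 < ε / (3 * (C + 1)) := by positivity
  refine ⟨M, ε / (3 * (C + 1)), hτ, fun μ hμ h => ?_⟩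
  have hpt : ∀ x : T, ‖g x - P x‖ ≤ ε / 3 := by
    intro x
    rw [← dist_eq_norm]
    exact (ContinuousMap.dist_apply_le_dist x).trans hgP.le
  have h1 : dist (∫ x, g x ∂μ) (∫ x, P x ∂μ) ≤ ε / 3 := by
    rw [dist_eq_norm, ← integral_sub (intg g μ) (intg P μ)]
    have := norm_integral_le_of_norm_le_const (μ := μ) (f := fun x => g x - P x) (C := ε / 3)
      (Filter.Eventually.of_forall hpt)
    simpa using this
  have h2 : dist (∫ t in (0 : ℝ)..1, P ((t : ℝ) : T)) (∫ t in (0 : ℝ)..1, g ((t : ℝ) : T)) ≤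
      ε / 3 := by
    rw [dist_comm, dist_eq_norm, ← intervalIntegral.integral_sub (intg2 g) (intg2 P)]
    have := intervalIntegral.norm_integral_le_of_norm_le_const (a := (0 : ℝ)) (b := 1) (C := ε / 3)
      (f := fun t : ℝ => g ((t : ℝ) : T) - P ((t : ℝ) : T)) (fun t _ => hpt _)
    simpa using this
  have h3 : dist (∫ x, P x ∂μ) (∫ t in (0 : ℝ)..1, P ((t : ℝ) : T)) ≤ ε / 3 := by
    rw [dist_eq_norm]
    refine (hctl _ hτ.le μ hμ h).trans ?_
    rw [← mul_div_assoc, div_le_div_iff₀ (by positivity) (by norm_num)]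
    nlinarith
  have h4 := dist_triangle4 (∫ x, g x ∂μ) (∫ x, P x ∂μ) (∫ t in (0 : ℝ)..1, P ((t : ℝ) : T))
    (∫ t in (0 : ℝ)..1, g ((t : ℝ) : T))
  have e1 : ∫ x, g x ∂μ = ((∫ x, f x ∂μ : ℝ) : ℂ) := integral_ofReal
  have e2 : ∫ t in (0 : ℝ)..1, g ((t : ℝ) : T) = ((∫ t in (0 : ℝ)..1, f ((t : ℝ) : T) : ℝ) : ℂ) :=
    intervalIntegral.integral_ofReal
  rw [e1, e2] at h4
  rw [e1] at h1
  rw [e2] at h2
  have h5 : dist ((∫ x, f x ∂μ : ℝ) : ℂ) ((∫ t in (0 : ℝ)..1, f ((t : ℝ) : T) : ℝ) : ℂ) =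
      |∫ x, f x ∂μ - ∫ t in (0 : ℝ)..1, f ((t : ℝ) : T)| := by
    rw [dist_eq_norm, ← Complex.ofReal_sub, Complex.norm_real, Real.norm_eq_abs]
  rw [h5] at h4
  linarith

end Pool.Agent.Lib.MP_715eb0_an.SI
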