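import Pool.Agent.Lib.MP_715eb0_an.SI.Spec

/-!
# FIN: equidistribution along short polynomial progressions
-/

set_option autoImplicit false

open MeasureTheory Finset Polynomial

namespace Pool.Agent.Lib.MP_715eb0_an.SI

namespace FINM

/-- the measures with the atom `z` -/
lemma eq_U {μ : Measure T} (hμ : Erg μ) {z : T} (hz : μ {z} ≠ 0) :
    μ = U (Orb z) ∧ IsProbabilityMeasure μ := by
  obtain ⟨x₀, h1, h2⟩ := classify hμ
  have h3 : z ∈ Orb x₀ := by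
    rw [h2] at hz
    exact (U_singleton z).mp hz
  rw [Orb_eq h1 h3]
  refine ⟨h2, ?_⟩
  rw [h2]
  exact U_prob (Orb_nonempty h1)

/-- Chebyshev's inequality for finitely many moments -/
lemma cheb (ms : Finset ℤ) (H : ℕ) (c : ℤ → ℕ → ℝ) (τ δ : ℝ) (hτ : 0 < τ)
    (_hc : ∀ m k, 0 ≤ c m k)
    (h : ∀ m ∈ ms, ∑ k ∈ range H, c m k ^ 2 ≤ δ * H) :
    (((range H).filter (fun k => ∃ m ∈ ms, τ < c m k)).card : ℝ) * τ ^ 2 ≤
      ms.card * (δ * H) := by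
  calc (((range H).filter (fun k => ∃ m ∈ ms, τ < c m k)).card : ℝ) * τ ^ 2
      = ∑ k ∈ (range H).filter (fun k => ∃ m ∈ ms, τ < c m k), τ ^ 2 := by
        rw [sum_const, nsmul_eq_mul]
    _ ≤ ∑ k ∈ (range H).filter (fun k => ∃ m ∈ ms, τ < c m k), ∑ m ∈ ms, c m k ^ 2 := by
        refine sum_le_sum fun k hk => ?_
        obtain ⟨m, hm, hlt⟩ := (mem_filter.mp hk).2
        refine le_trans ?_ (single_le_sum (f := fun m => c m k ^ 2)
          (fun i _ => sq_nonneg _) hm)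
        exact pow_le_pow_left₀ hτ.le hlt.le 2
    _ ≤ ∑ k ∈ range H, ∑ m ∈ ms, c m k ^ 2 :=
        sum_le_sum_of_subset_of_nonneg (filter_subset _ _)
          (fun k _ _ => sum_nonneg fun i _ => sq_nonneg _)
    _ = ∑ m ∈ ms, ∑ k ∈ range H, c m k ^ 2 := sum_comm
    _ ≤ ∑ m ∈ ms, δ * H := sum_le_sum h
    _ = ms.card * (δ * H) := by rw [sum_const, nsmul_eq_mul]

end FINM

open FINM in
theorem specFIN (hMOM : SpecMOM) (hTRG : SpecTRG) : SpecFIN := by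
  intro P f ε η hP hε hη
  obtain ⟨M, τ, hτ, hT⟩ := hTRG f ε hε
  set δ : ℝ := ε * τ ^ 2 / (2 * M + 1) with hδ
  have hδ0 : 0 < δ := by positivity
  have hM : ∀ m : ℤ, ∃ q₀ : ℕ, m ≠ 0 →
      ∀ x y : T, (addOrderOf x).Coprime 6 → q₀ ≤ addOrderOf x → addOrderOf x • y = 0 →
      ∀ H : ℕ, (addOrderOf x : ℝ) ^ η ≤ H →
        ∑ k ∈ range H, ‖∫ t, (fourier m t : ℂ) ∂(U (Orb (y + P.eval (k : ℤ) • x)))‖ ^ 2 ≤
          δ * H := by
    intro m
    by_cases hm : m = 0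
    · exact ⟨0, fun h => absurd hm h⟩
    · obtain ⟨q₀, hq₀⟩ := hMOM P m δ η hP hm hδ0 hη
      exact ⟨q₀, fun _ => hq₀⟩
  choose Q hQ using hM
  refine ⟨(Finset.Icc (-(M : ℤ)) M).sup Q, ?_⟩
  intro x y hx hq hy H hH
  classical
  set ms : Finset ℤ := (Finset.Icc (-(M : ℤ)) M).filter (fun m => m ≠ 0) with hms
  have hcard : (ms.card : ℝ) ≤ 2 * M + 1 := by
    have h1 : ms.card ≤ (Finset.Icc (-(M : ℤ)) M).card := card_filter_le _ _
    have h2 : (Finset.Icc (-(M : ℤ)) M).card = 2 * M + 1 := by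
      rw [Int.card_Icc]
      omega
    rw [h2] at h1
    exact_mod_cast h1
  set c : ℤ → ℕ → ℝ := fun m k =>
    ‖∫ t, (fourier m t : ℂ) ∂(U (Orb (y + P.eval (k : ℤ) • x)))‖ with hc
  have hmom : ∀ m ∈ ms, ∑ k ∈ range H, c m k ^ 2 ≤ δ * H := by
    intro m hm
    have h1 := mem_filter.mp hm
    exact hQ m h1.2 x y hx ((Finset.le_sup h1.1).trans hq) hy H hH
  have h1 := cheb ms H c τ δ hτ (fun m k => norm_nonneg _) hmom
  have hsub : {k : ℕ | k < H ∧ ∃ μ : Measure T, Erg μ ∧ μ {y + P.eval (k : ℤ) • x} ≠ 0 ∧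
      ε < |∫ t, f t ∂μ - ∫ t in (0 : ℝ)..1, f ((t : ℝ) : T)|} ⊆
      (((range H).filter (fun k => ∃ m ∈ ms, τ < c m k) : Finset ℕ) : Set ℕ) := by
    rintro k ⟨hk, μ, hμ, hat, hbig⟩
    obtain ⟨h2, h3⟩ := eq_U hμ hat
    rw [coe_filter]
    refine ⟨mem_range.mpr hk, ?_⟩
    by_contra hcon
    push Not at hcon
    have h4 := hT μ h3 (by
      intro m hm0 hmM
      have h5 := hcon m (mem_filter.mpr ⟨mem_Icc.mpr (abs_le.mp hmM), hm0⟩)
      rw [h2]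
      exact h5)
    linarith
  have h2 : (Set.ncard {k : ℕ | k < H ∧ ∃ μ : Measure T, Erg μ ∧
      μ {y + P.eval (k : ℤ) • x} ≠ 0 ∧
      ε < |∫ t, f t ∂μ - ∫ t in (0 : ℝ)..1, f ((t : ℝ) : T)|} : ℝ) ≤
      (((range H).filter (fun k => ∃ m ∈ ms, τ < c m k)).card : ℝ) := by
    have h3 := Set.ncard_le_ncard hsub (Finset.finite_toSet _)
    rw [Set.ncard_coe_finset] at h3
    exact_mod_cast h3
  refine h2.trans ?_
  have h3 : (ms.card : ℝ) * (δ * H) ≤ (2 * M + 1) * (δ * H) :=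
    mul_le_mul_of_nonneg_right hcard (by positivity)
  have h4 : (2 * (M : ℝ) + 1) * (δ * H) = ε * H * τ ^ 2 := by
    rw [hδ]
    field_simp
  have h5 := h1.trans (h3.trans h4.le)
  exact le_of_mul_le_mul_right h5 (by positivity)

end Pool.Agent.Lib.MP_715eb0_an.SI
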