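import Pool.Agent.Lib.MP_715eb0_an.SI.Spec

/-!
# Module COV: the large values of the Weyl sums of an integral polynomial
-/

set_option autoImplicit false

open MeasureTheory Finset Polynomial

namespace Pool.Agent.Lib.MP_715eb0_an.SI

namespace COVM

/-- the distance in the circle is at most the distance of the representatives -/
theorem dist_coe_le (s t : ℝ) : dist ((s : ℝ) : T) ((t : ℝ) : T) ≤ |s - t| := by
  rw [dist_eq_norm, ← QuotientAddGroup.mk_sub]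
  have h1 : ‖((s - t : ℝ) : UnitAddCircle)‖ = |(s - t) - round (s - t)| := UnitAddCircle.norm_eq
  have h2 : |(s - t) - round (s - t)| ≤ |(s - t) - ((0 : ℤ) : ℝ)| := round_le (s - t) 0
  rw [Int.cast_zero, sub_zero] at h2
  calc ‖((s - t : ℝ) : T)‖ = |(s - t) - round (s - t)| := h1
    _ ≤ |s - t| := h2

/-- the class of `n / M` has a representative `j / M`, `0 ≤ j < M` -/
theorem class_rep (n : ℤ) (M : ℕ) (hM : 1 ≤ M) : ∃ j ∈ range M,
    (((j : ℝ) / M : ℝ) : T) = (((n : ℝ) / M : ℝ) : T) := by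
  have hM' : (M : ℤ) ≠ 0 := by exact_mod_cast (by omega : M ≠ 0)
  have h0 : 0 ≤ n % (M : ℤ) := Int.emod_nonneg _ hM'
  have h1 : n % (M : ℤ) < M := Int.emod_lt_of_pos _ (by exact_mod_cast hM)
  refine ⟨(n % (M : ℤ)).toNat, ?_, ?_⟩
  · rw [mem_range]
    omega
  · rw [← sub_eq_zero, ← QuotientAddGroup.mk_sub]
    have h2 : (((n % (M : ℤ)).toNat : ℕ) : ℝ) = ((n % (M : ℤ) : ℤ) : ℝ) := by
      have h3 : (((n % (M : ℤ)).toNat : ℕ) : ℤ) = n % (M : ℤ) := Int.toNat_of_nonneg h0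
      exact_mod_cast h3
    have h4 : (n : ℝ) = ((n % (M : ℤ) : ℤ) : ℝ) + (M : ℝ) * ((n / (M : ℤ) : ℤ) : ℝ) := by
      exact_mod_cast (Int.emod_add_mul_ediv n (M : ℤ)).symm
    have hMr : (M : ℝ) ≠ 0 := by exact_mod_cast (by omega : M ≠ 0)
    have h5 : (((n % (M : ℤ)).toNat : ℕ) : ℝ) / M - (n : ℝ) / M = ((-(n / (M : ℤ)) : ℤ) : ℝ) := by
      rw [h2, h4]
      push_cast
      field_simp
      ring
    rw [h5]
    have h6 : ((((-(n / (M : ℤ)) : ℤ) : ℝ)) : T) = (-(n / (M : ℤ)) : ℤ) • ((1 : ℝ) : T) := by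
      rw [← QuotientAddGroup.mk_zsmul, zsmul_eq_mul, mul_one]
    refine h6.trans ?_
    have h7 : ((1 : ℝ) : T) = 0 := AddCircle.coe_period 1
    rw [h7, smul_zero]

end COVM

theorem specCOV (hWEY : SpecWEY) : SpecCOV := by
  classical
  intro P κ hd hκ
  obtain ⟨C, hC, hW⟩ := hWEY P.natDegree κ hd hκ
  set c : ℤ := P.leadingCoeff with hc
  have hc0 : c ≠ 0 := by
    rw [hc, Polynomial.leadingCoeff_ne_zero]
    intro h
    rw [h, natDegree_zero] at hd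
    omega
  have hm : 1 ≤ c.natAbs := Int.natAbs_pos.mpr hc0
  refine ⟨(Icc 1 C).biUnion fun r => (range (r * c.natAbs)).image fun j : ℕ =>
    (((j : ℝ) / ((r * c.natAbs : ℕ) : ℝ) : ℝ) : T), C, by exact_mod_cast hC, ?_⟩
  intro θ H hH hθ
  obtain ⟨t, rfl⟩ := QuotientAddGroup.mk_surjective θ
  set p : ℝ[X] := Polynomial.C t * P.map (Int.castRingHom ℝ) with hp
  have hpd : p.natDegree ≤ P.natDegree :=
    (natDegree_C_mul_le _ _).trans natDegree_map_le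
  have hev : ∀ k : ℕ, p.eval (k : ℝ) = t * ((P.eval (k : ℤ) : ℤ) : ℝ) := by
    intro k
    rw [hp, eval_mul, eval_C]
    congr 1
    have h1 := Polynomial.eval_intCast_map (Int.castRingHom ℝ) P (k : ℤ)
    rw [Int.cast_natCast] at h1
    rw [h1]
    simp
  have hsum : ∑ k ∈ range H, e (p.eval (k : ℝ)) =
      ∑ k ∈ range H, (fourier (P.eval (k : ℤ)) ((t : ℝ) : T) : ℂ) := by
    refine sum_congr rfl fun k _ => ?_
    rw [hev, e, fourier_coe_apply]
    congr 1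
    push_cast
    ring
  obtain ⟨r, n, hr1, hr2, hrn⟩ := hW p H hpd hH (by rw [hsum]; exact hθ)
  have hcoef : p.coeff P.natDegree = t * c := by
    rw [hp, coeff_C_mul, coeff_map]
    rfl
  rw [hcoef] at hrn
  have hM : 1 ≤ r * c.natAbs := Nat.mul_pos hr1 hm
  obtain ⟨j, hj, hjn⟩ := COVM.class_rep (c.sign * n) (r * c.natAbs) hM
  refine ⟨(((j : ℝ) / ((r * c.natAbs : ℕ) : ℝ) : ℝ) : T), ?_, ?_⟩
  · rw [mem_biUnion]
    exact ⟨r, mem_Icc.mpr ⟨hr1, hr2⟩, mem_image.mpr ⟨j, hj, rfl⟩⟩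
  · rw [hjn]
    refine (COVM.dist_coe_le _ _).trans ?_
    have hMr : (1 : ℝ) ≤ ((r * c.natAbs : ℕ) : ℝ) := by exact_mod_cast hM
    have hM0 : (0 : ℝ) < ((r * c.natAbs : ℕ) : ℝ) := by linarith
    have h1 : t - ((c.sign * n : ℤ) : ℝ) / ((r * c.natAbs : ℕ) : ℝ) =
        (((r * c.natAbs : ℕ) : ℝ) * t - ((c.sign * n : ℤ) : ℝ)) / ((r * c.natAbs : ℕ) : ℝ) := by
      field_simp
    have h2 : |((r * c.natAbs : ℕ) : ℝ) * t - ((c.sign * n : ℤ) : ℝ)| =
        |(r : ℝ) * (t * c) - n| := by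
      have h3 : ((c.natAbs : ℕ) : ℝ) = ((c.sign : ℤ) : ℝ) * (c : ℝ) := by
        rw [Nat.cast_natAbs, ← Int.sign_mul_self_eq_abs, Int.cast_mul]
      have h5 : ((r * c.natAbs : ℕ) : ℝ) * t - ((c.sign * n : ℤ) : ℝ) =
          ((c.sign : ℤ) : ℝ) * ((r : ℝ) * (t * c) - n) := by
        rw [Nat.cast_mul, h3]
        push_cast
        ring
      rw [h5, abs_mul]
      have h6 : |((c.sign : ℤ) : ℝ)| = 1 := by
        rcases lt_or_gt_of_ne hc0 with h | h
        · rw [Int.sign_eq_neg_one_of_neg h]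
          simp
        · rw [Int.sign_eq_one_of_pos h]
          simp
      rw [h6, one_mul]
    rw [h1, abs_div, h2, abs_of_pos hM0]
    calc |(r : ℝ) * (t * c) - n| / ((r * c.natAbs : ℕ) : ℝ)
        ≤ |(r : ℝ) * (t * c) - n| := div_le_self (abs_nonneg _) hMr
      _ ≤ (C : ℝ) / H := hrn

end Pool.Agent.Lib.MP_715eb0_an.SI
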