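import Pool.Agent.Lib.MP_715eb0_an.SI.Spec

/-!
# MP_715eb0_an, module EXP: opening the square
-/

set_option autoImplicit false

open MeasureTheory Finset Polynomial ComplexConjugate

namespace Pool.Agent.Lib.MP_715eb0_an.SI

namespace EXPM

lemma fourier_mul_conj (n : ℤ) (x x' : T) :
    (fourier n x : ℂ) * conj (fourier n x' : ℂ) = fourier n (x - x') := by
  rw [← fourier_neg]
  simp only [fourier_apply]
  rw [← Circle.coe_mul, ← AddCircle.toCircle_add]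
  congr 2
  rw [neg_smul, zsmul_sub]
  abel

end EXPM

open EXPM in
theorem specEXP : SpecEXP := by
  intro ι W θ a s H ha
  have h1 : ∀ k, ((‖∑ p ∈ W, a p * (fourier (s k) (θ p) : ℂ)‖ ^ 2 : ℝ) : ℂ) =
      ∑ p ∈ W, ∑ p' ∈ W, (a p * conj (a p')) * (fourier (s k) (θ p - θ p') : ℂ) := by
    intro k
    have : ((‖∑ p ∈ W, a p * (fourier (s k) (θ p) : ℂ)‖ ^ 2 : ℝ) : ℂ) =
        (∑ p ∈ W, a p * (fourier (s k) (θ p) : ℂ)) *
          conj (∑ p ∈ W, a p * (fourier (s k) (θ p) : ℂ)) := by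
      rw [Complex.mul_conj, Complex.normSq_eq_norm_sq]
    rw [this, map_sum, Finset.sum_mul_sum]
    apply Finset.sum_congr rfl
    intro p _
    apply Finset.sum_congr rfl
    intro p' _
    rw [← fourier_mul_conj, map_mul]
    ring
  have h2 : ((∑ k ∈ range H, ‖∑ p ∈ W, a p * (fourier (s k) (θ p) : ℂ)‖ ^ 2 : ℝ) : ℂ) =
      ∑ p ∈ W, ∑ p' ∈ W, (a p * conj (a p')) *
        ∑ k ∈ range H, (fourier (s k) (θ p - θ p') : ℂ) := by
    rw [Complex.ofReal_sum, Finset.sum_congr rfl (fun k _ => h1 k), Finset.sum_comm]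
    apply Finset.sum_congr rfl
    intro p _
    rw [Finset.sum_comm]
    apply Finset.sum_congr rfl
    intro p' _
    rw [Finset.mul_sum]
  have h3 : 0 ≤ ∑ k ∈ range H, ‖∑ p ∈ W, a p * (fourier (s k) (θ p) : ℂ)‖ ^ 2 :=
    Finset.sum_nonneg fun _ _ => by positivity
  calc ∑ k ∈ range H, ‖∑ p ∈ W, a p * (fourier (s k) (θ p) : ℂ)‖ ^ 2
      = ‖((∑ k ∈ range H, ‖∑ p ∈ W, a p * (fourier (s k) (θ p) : ℂ)‖ ^ 2 : ℝ) : ℂ)‖ := by
        rw [Complex.norm_real, Real.norm_of_nonneg h3]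
    _ = ‖∑ p ∈ W, ∑ p' ∈ W, (a p * conj (a p')) *
        ∑ k ∈ range H, (fourier (s k) (θ p - θ p') : ℂ)‖ := by rw [h2]
    _ ≤ ∑ p ∈ W, ∑ p' ∈ W, ‖∑ k ∈ range H, (fourier (s k) (θ p - θ p') : ℂ)‖ := by
        refine (norm_sum_le _ _).trans (Finset.sum_le_sum fun p hp => ?_)
        refine (norm_sum_le _ _).trans (Finset.sum_le_sum fun p' hp' => ?_)
        rw [norm_mul, norm_mul, Complex.norm_conj]
        have h4 : ‖a p‖ * ‖a p'‖ ≤ 1 := by
          nlinarith [ha p hp, ha p' hp', norm_nonneg (a p), norm_nonneg (a p')]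
        exact mul_le_of_le_one_left (norm_nonneg _) h4

end Pool.Agent.Lib.MP_715eb0_an.SI
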