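import Pool.Agent.Lib.MP_715eb0_an.SI.Spec

/-!
# MP_715eb0_an, SI: module WEY (large values of Weyl sums)
-/

set_option autoImplicit false

open MeasureTheory Finset Polynomial

namespace Pool.Agent.Lib.MP_715eb0_an.SI

namespace WEYM

theorem e_eq (t : ℝ) : e t = Complex.exp (((2 * Real.pi * t : ℝ) : ℂ) * Complex.I) := by
  unfold e
  congr 1
  push_cast
  ring

theorem norm_e (t : ℝ) : ‖e t‖ = 1 := by
  rw [e_eq]
  exact Complex.norm_exp_ofReal_mul_I _

theorem e_add (s t : ℝ) : e (s + t) = e s * e t := by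
  unfold e
  rw [← Complex.exp_add]
  congr 1
  push_cast
  ring

theorem e_zero : e 0 = 1 := by
  unfold e
  simp

theorem e_int (n : ℤ) : e (n : ℝ) = 1 := by
  unfold e
  rw [Complex.exp_eq_one_iff]
  exact ⟨n, by push_cast; ring⟩

theorem e_conj (t : ℝ) : (starRingEnd ℂ) (e t) = e (-t) := by
  rw [e_eq, e_eq, ← Complex.exp_conj]
  congr 1
  rw [map_mul, Complex.conj_ofReal, Complex.conj_I]
  push_cast
  ring

theorem e_nsmul (t : ℝ) (k : ℕ) : e (t * k) = e t ^ k := by
  induction k with
  | zero => simp [e_zero]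
  | succ k ih =>
    rw [pow_succ, ← ih, ← e_add]
    congr 1
    push_cast
    ring

theorem norm_e_sub_one (t : ℝ) (ht : |t| ≤ 1 / 2) : 4 * |t| ≤ ‖e t - 1‖ := by
  have h1 : ‖e t - 1‖ = |2 * Real.sin (Real.pi * t)| := by
    have h := Complex.norm_exp_I_mul_ofReal_sub_one (2 * Real.pi * t)
    rw [e_eq, mul_comm, h, Real.norm_eq_abs]
    congr 3
    ring
  rw [h1, abs_mul, abs_two]
  have hpi := Real.pi_pos
  have h2 : |Real.pi * t| ≤ Real.pi / 2 := by
    rw [abs_mul, abs_of_pos hpi]
    nlinarith
  have h3 := Real.mul_abs_le_abs_sin h2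
  rw [abs_mul, abs_of_pos hpi] at h3
  have h4 : 2 / Real.pi * (Real.pi * |t|) = 2 * |t| := by
    field_simp
  rw [h4] at h3
  linarith

/-- a geometric sum -/
theorem geom (a b : ℝ) (H : ℕ) (n : ℤ) (hn : |a - n| ≤ 1 / 2) :
    4 * |a - n| * ‖∑ k ∈ range H, e (a * k + b)‖ ≤ 2 := by
  have h1 : ∑ k ∈ range H, e (a * k + b) = e b * ∑ k ∈ range H, e (a - n) ^ k := by
    rw [mul_sum]
    refine sum_congr rfl fun k _ => ?_
    rw [add_comm, e_add, ← e_nsmul]
    congr 1
    have h2 : a * k = (a - n) * k + ((n * k : ℤ) : ℝ) := by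
      push_cast
      ring
    rw [h2, e_add, e_int, mul_one]
  rw [h1, norm_mul, norm_e, one_mul]
  have h3 := mul_geom_sum (e (a - n)) H
  have h4 : ‖e (a - n) - 1‖ * ‖∑ k ∈ range H, e (a - n) ^ k‖ ≤ 2 := by
    rw [← norm_mul, h3]
    refine (norm_sub_le _ _).trans ?_
    rw [norm_pow, norm_e, one_pow, norm_one]
    norm_num
  refine le_trans ?_ h4
  exact mul_le_mul_of_nonneg_right (norm_e_sub_one _ hn) (norm_nonneg _)

/-- the correlation sums -/
noncomputable def S (a : ℕ → ℂ) (H h : ℕ) : ℂ :=
  ∑ l ∈ range (H - h), a (l + h) * (starRingEnd ℂ) (a l)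

theorem square (a : ℕ → ℂ) (H : ℕ) :
    ‖∑ k ∈ range H, a k‖ ^ 2 ≤ 2 * ∑ h ∈ range H, ‖S a H h‖ := by
  have h0 : (∑ k ∈ range H, a k) * (starRingEnd ℂ) (∑ k ∈ range H, a k) =
      ∑ x ∈ range H ×ˢ range H, a x.1 * (starRingEnd ℂ) (a x.2) := by
    rw [map_sum, sum_mul_sum, sum_product]
  have h1 : ∑ x ∈ (range H ×ˢ range H).filter (fun x => x.2 ≤ x.1),
      a x.1 * (starRingEnd ℂ) (a x.2) = ∑ h ∈ range H, S a H h := by
    unfold S
    rw [sum_sigma']
    refine sum_nbij' (fun x => ⟨x.1 - x.2, x.2⟩) (fun x => (x.2 + x.1, x.2)) ?_ ?_ ?_ ?_ ?_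
    · rintro ⟨k, l⟩ hx
      simp only [mem_filter, mem_product, mem_range, mem_sigma] at hx ⊢
      omega
    · rintro ⟨h, l⟩ hx
      simp only [mem_filter, mem_product, mem_range, mem_sigma] at hx ⊢
      omega
    · rintro ⟨k, l⟩ hx
      simp only [mem_filter, mem_product, mem_range] at hx
      simp only [Prod.mk.injEq, and_true]
      omega
    · rintro ⟨h, l⟩ hx
      simp only [Nat.add_sub_cancel_left]
    · rintro ⟨k, l⟩ hx
      simp only [mem_filter, mem_product, mem_range] at hx
      simp only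
      rw [show l + (k - l) = k by omega]
  have h2 : ∑ x ∈ (range H ×ˢ range H).filter (fun x => ¬ x.2 ≤ x.1),
      a x.1 * (starRingEnd ℂ) (a x.2) =
      ∑ h ∈ (range H).filter (fun h => 0 < h), (starRingEnd ℂ) (S a H h) := by
    unfold S
    simp only [map_sum]
    rw [sum_sigma']
    refine sum_nbij' (fun x => ⟨x.2 - x.1, x.1⟩) (fun x => (x.2, x.2 + x.1)) ?_ ?_ ?_ ?_ ?_
    · rintro ⟨k, l⟩ hx
      simp only [mem_filter, mem_product, mem_range, mem_sigma] at hx ⊢
      omega
    · rintro ⟨h, l⟩ hx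
      simp only [mem_filter, mem_product, mem_range, mem_sigma] at hx ⊢
      omega
    · rintro ⟨k, l⟩ hx
      simp only [mem_filter, mem_product, mem_range] at hx
      simp only [Prod.mk.injEq, true_and]
      omega
    · rintro ⟨h, l⟩ hx
      simp only [Nat.add_sub_cancel_left]
    · rintro ⟨k, l⟩ hx
      simp only [mem_filter, mem_product, mem_range] at hx
      simp only [map_mul, Complex.conj_conj]
      rw [show k + (l - k) = l by omega, mul_comm]
  have h3 : ‖∑ k ∈ range H, a k‖ ^ 2 =
      ‖(∑ k ∈ range H, a k) * (starRingEnd ℂ) (∑ k ∈ range H, a k)‖ := by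
    rw [norm_mul, RCLike.norm_conj, sq]
  rw [h3, h0, ← sum_filter_add_sum_filter_not _ (fun x : ℕ × ℕ => x.2 ≤ x.1), h1, h2]
  have h4 : ‖∑ h ∈ range H, S a H h‖ ≤ ∑ h ∈ range H, ‖S a H h‖ := norm_sum_le _ _
  have h5 : ‖∑ h ∈ (range H).filter (fun h => 0 < h), (starRingEnd ℂ) (S a H h)‖ ≤
      ∑ h ∈ range H, ‖S a H h‖ := by
    refine (norm_sum_le _ _).trans ?_
    refine (sum_le_sum_of_subset_of_nonneg (filter_subset _ _)
      (fun _ _ _ => norm_nonneg _)).trans (le_of_eq ?_)
    exact sum_congr rfl fun h _ => RCLike.norm_conj _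
  exact (norm_add_le _ _).trans (by linarith)

/-- the difference polynomial -/
noncomputable def df (p : ℝ[X]) (h : ℝ) : ℝ[X] := taylor h p - p

theorem df_eval (p : ℝ[X]) (h s : ℝ) : (df p h).eval s = p.eval (s + h) - p.eval s := by
  unfold df
  rw [eval_sub, taylor_eval]

theorem df_coeff (p : ℝ[X]) (h : ℝ) (d : ℕ) (hp : p.natDegree ≤ d + 1) :
    (df p h).coeff d = (d + 1) * h * p.coeff (d + 1) := by
  unfold df
  rw [coeff_sub, taylor_coeff]
  have h1 : (hasseDeriv d p).natDegree < 2 := by
    have := natDegree_hasseDeriv_le p d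
    omega
  rw [eval_eq_sum_range' h1, sum_range_succ, sum_range_one, hasseDeriv_coeff, hasseDeriv_coeff]
  rw [zero_add, Nat.choose_self, show 1 + d = d + 1 by ring, Nat.choose_succ_self_right]
  push_cast
  ring

theorem df_natDegree (p : ℝ[X]) (h : ℝ) (d : ℕ) (hp : p.natDegree ≤ d + 1) :
    (df p h).natDegree ≤ d := by
  rw [natDegree_le_iff_coeff_eq_zero]
  intro N hN
  unfold df
  rw [coeff_sub]
  by_cases hN2 : N = d + 1
  · subst hN2
    rw [taylor_coeff]
    have h1 : (hasseDeriv (d + 1) p).natDegree < 1 := by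
      have := natDegree_hasseDeriv_le p (d + 1)
      omega
    rw [eval_eq_sum_range' h1, sum_range_one, hasseDeriv_coeff, zero_add, Nat.choose_self]
    push_cast
    ring
  · have h1 : p.coeff N = 0 := coeff_eq_zero_of_natDegree_lt (by omega)
    have h2 : (taylor h p).coeff N = 0 :=
      coeff_eq_zero_of_natDegree_lt (by rw [natDegree_taylor]; omega)
    rw [h1, h2, sub_zero]

end WEYM

open WEYM in
theorem specWEY : SpecWEY := by
  intro d
  induction d with
  | zero => intro κ h; omega
  | succ d ih =>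
    intro κ _ hκ
    rcases Nat.eq_zero_or_pos d with hd | hd
    · -- degree one
      subst hd
      obtain ⟨C, hC⟩ := exists_nat_ge (1 / (2 * κ))
      refine ⟨C + 1, by omega, fun p H hp hH hsum => ?_⟩
      refine ⟨1, round (p.coeff 1), le_rfl, by omega, ?_⟩
      have hHr : (0 : ℝ) < H := by exact_mod_cast hH
      have h1 : ∑ k ∈ range H, e (p.eval (k : ℝ)) =
          ∑ k ∈ range H, e (p.coeff 1 * k + p.coeff 0) := by
        refine sum_congr rfl fun k _ => ?_
        congr 1
        rw [eval_eq_sum_range' (n := 2) (by omega), sum_range_succ, sum_range_one]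
        ring
      have h2 := geom (p.coeff 1) (p.coeff 0) H (round (p.coeff 1)) (abs_sub_round _)
      rw [← h1] at h2
      have h3 : 4 * |p.coeff 1 - round (p.coeff 1)| * (κ * H) ≤ 2 :=
        (mul_le_mul_of_nonneg_left hsum (by positivity)).trans h2
      rw [Nat.cast_one, one_mul, le_div_iff₀ hHr]
      have h4 : |p.coeff 1 - round (p.coeff 1)| * H ≤ 1 / (2 * κ) := by
        rw [le_div_iff₀ (by positivity)]
        linarith
      push_cast
      linarith
    · -- the step
      obtain ⟨C', hC', hIH⟩ := ih (κ ^ 2 / 4) hd (by positivity)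
      have hC'r : (1 : ℝ) ≤ C' := by exact_mod_cast hC'
      obtain ⟨B, hB⟩ := exists_nat_ge (8 * C' / κ ^ 2)
      have hBr : (0 : ℝ) < B := lt_of_lt_of_le (by positivity) hB
      have hB1 : 1 ≤ B := by exact_mod_cast hBr
      have hκB : 8 * C' ≤ B * κ ^ 2 := (div_le_iff₀ (by positivity)).1 hB
      have hBC : B ≤ C' * (d + 1) * B := Nat.le_mul_of_pos_left B (by positivity)
      have hCB : 1 ≤ C' * (d + 1) * B :=
        Nat.mul_pos (Nat.mul_pos hC' (Nat.succ_pos d)) hB1
      refine ⟨C' * (d + 1) * B, hCB, fun p H hp hH hsum => ?_⟩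
      have hHr : (0 : ℝ) < H := by exact_mod_cast hH
      rcases le_or_gt ((H : ℝ)) (8 * C' / κ ^ 2) with hsmall | hlarge
      · refine ⟨1, round (p.coeff (d + 1)), le_rfl, hCB, ?_⟩
        rw [Nat.cast_one, one_mul, le_div_iff₀ hHr]
        have h1 := abs_sub_round (p.coeff (d + 1))
        have h2 : (H : ℝ) ≤ (C' * (d + 1) * B : ℕ) :=
          (hsmall.trans hB).trans (by exact_mod_cast hBC)
        have h3 := abs_nonneg (p.coeff (d + 1) - round (p.coeff (d + 1)))
        nlinarith
      · -- large `H`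
        have hlarge' : 8 * C' < H * κ ^ 2 := (div_lt_iff₀ (by positivity)).1 hlarge
        set a : ℕ → ℂ := fun k => e (p.eval (k : ℝ)) with ha
        have hS : ∀ h, S a H h = ∑ l ∈ range (H - h), e ((df p h).eval (l : ℝ)) := by
          intro h
          unfold S
          refine sum_congr rfl fun l _ => ?_
          simp only [ha]
          rw [e_conj, ← e_add, df_eval]
          congr 1
          push_cast
          ring
        have hSn : ∀ h, ‖S a H h‖ ≤ ((H - h : ℕ) : ℝ) := by
          intro h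
          rw [hS]
          refine (norm_sum_le _ _).trans ?_
          simp only [norm_e, sum_const, card_range, nsmul_eq_mul, mul_one, le_refl]
        set G : Finset ℕ := (range H).filter fun h => κ ^ 2 / 4 * H ≤ ‖S a H h‖ with hG
        have hGc : κ ^ 2 * H / 4 ≤ G.card := by
          have h1 := square a H
          have h2 : ∑ h ∈ range H, ‖S a H h‖ ≤ G.card * H + H * (κ ^ 2 / 4 * H) := by
            rw [← sum_filter_add_sum_filter_not (range H)
              (fun h => κ ^ 2 / 4 * (H : ℝ) ≤ ‖S a H h‖), ← hG]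
            refine add_le_add ?_ ?_
            · rw [← nsmul_eq_mul, ← sum_const]
              refine sum_le_sum fun h _ => (hSn h).trans ?_
              exact_mod_cast Nat.sub_le _ _
            · have h3 : ∑ h ∈ (range H).filter (fun h => ¬ κ ^ 2 / 4 * (H : ℝ) ≤ ‖S a H h‖),
                  ‖S a H h‖ ≤ ((range H).filter
                    (fun h => ¬ κ ^ 2 / 4 * (H : ℝ) ≤ ‖S a H h‖)).card * (κ ^ 2 / 4 * H) := by
                rw [← nsmul_eq_mul, ← sum_const]
                refine sum_le_sum fun h hh => ?_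
                exact (not_le.1 (mem_filter.1 hh).2).le
              refine h3.trans (mul_le_mul_of_nonneg_right ?_ (by positivity))
              have h4 := card_filter_le (range H)
                (fun h => ¬ κ ^ 2 / 4 * (H : ℝ) ≤ ‖S a H h‖)
              rw [card_range] at h4
              exact_mod_cast h4
          have h3 : (κ * H) ^ 2 ≤ ‖∑ k ∈ range H, a k‖ ^ 2 :=
            pow_le_pow_left₀ (by positivity) hsum 2
          have h4 : (κ * H) ^ 2 ≤ 2 * (G.card * H + H * (κ ^ 2 / 4 * H)) := by linarith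
          have h5 : (κ ^ 2 * H / 4) * H ≤ G.card * H := by nlinarith
          exact le_of_mul_le_mul_right h5 hHr
        have hGi : ∀ h, ∃ (r : ℕ) (n : ℤ), h ∈ G → 1 ≤ r ∧ r ≤ C' ∧
            |(r : ℝ) * ((d + 1) * h * p.coeff (d + 1)) - n| ≤ 4 * C' / (κ ^ 2 * H) := by
          intro h
          by_cases hh : h ∈ G
          · have hh2 := (mem_filter.1 hh).2
            have h1 : κ ^ 2 / 4 * (H : ℝ) ≤ ((H - h : ℕ) : ℝ) := hh2.trans (hSn h)
            have h0 : 0 < κ ^ 2 / 4 * (H : ℝ) := by positivity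
            have h2 : 1 ≤ H - h := by
              have : (0 : ℝ) < ((H - h : ℕ) : ℝ) := lt_of_lt_of_le h0 h1
              exact_mod_cast this
            have h3 : ((H - h : ℕ) : ℝ) ≤ H := by exact_mod_cast Nat.sub_le _ _
            obtain ⟨r, n, e1, e2, e3⟩ := hIH (df p h) (H - h) (df_natDegree p h d hp) h2 (by
              rw [← hS]
              refine le_trans ?_ hh2
              exact mul_le_mul_of_nonneg_left h3 (by positivity))
            refine ⟨r, n, fun _ => ⟨e1, e2, ?_⟩⟩
            rw [df_coeff p h d hp] at e3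
            refine e3.trans ?_
            rw [div_le_div_iff₀ (lt_of_lt_of_le h0 h1) (by positivity)]
            nlinarith
          · exact ⟨0, 0, fun h' => absurd h' hh⟩
        choose r n hrn using hGi
        -- pigeonhole
        have hcard : (Icc 1 C' ×ˢ range (H / B + 1)).card < G.card := by
          rw [card_product, Nat.card_Icc, card_range, Nat.add_sub_cancel]
          have h1 : ((H / B : ℕ) : ℝ) ≤ H / B := Nat.cast_div_le
          have h2 : (C' : ℝ) * (((H / B : ℕ) : ℝ) + 1) < κ ^ 2 * H / 4 := by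
            have h3 : (C' : ℝ) * (H / B) ≤ κ ^ 2 * H / 8 := by
              rw [mul_div_assoc', div_le_div_iff₀ hBr (by norm_num)]
              nlinarith
            have h4 : (C' : ℝ) * ((H / B : ℕ) : ℝ) ≤ C' * (H / B) :=
              mul_le_mul_of_nonneg_left h1 (by positivity)
            nlinarith
          have h5 : (C' : ℝ) * (((H / B : ℕ) : ℝ) + 1) < G.card := lt_of_lt_of_le h2 hGc
          exact_mod_cast h5
        obtain ⟨h, hh, h', hh', hne, heq⟩ := exists_ne_map_eq_of_card_lt_of_maps_to hcard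
          (f := fun h => (r h, h / B)) (by
            intro h hh
            have hh0 := mem_coe.1 hh
            obtain ⟨e1, e2, -⟩ := hrn h hh0
            have hhH : h < H := mem_range.1 (mem_filter.1 hh0).1
            rw [mem_coe, mem_product, mem_Icc, mem_range]
            exact ⟨⟨e1, e2⟩, Nat.lt_succ_of_le (Nat.div_le_div_right hhH.le)⟩)
        -- the conclusion for `h' < h`
        have main : ∀ h h', h ∈ G → h' ∈ G → h' < h → (r h, h / B) = (r h', h' / B) →
            ∃ (r : ℕ) (n : ℤ), 1 ≤ r ∧ r ≤ C' * (d + 1) * B ∧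
              |(r : ℝ) * p.coeff (d + 1) - n| ≤ ((C' * (d + 1) * B : ℕ) : ℝ) / H := by
          intro h h' hh hh' hlt heq
          rw [Prod.mk.injEq] at heq
          obtain ⟨e1, e2, e3⟩ := hrn h hh
          obtain ⟨-, -, e6⟩ := hrn h' hh'
          have hdiff : h - h' < B := by
            have h1 := Nat.div_add_mod h B
            have h2 := Nat.div_add_mod h' B
            have h3 := Nat.mod_lt h hB1
            rw [heq.2] at h1
            omega
          refine ⟨r h * (d + 1) * (h - h'), n h - n h', ?_, ?_, ?_⟩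
          · have h0 : 0 < h - h' := by omega
            exact Nat.mul_pos (Nat.mul_pos e1 (Nat.succ_pos d)) h0
          · exact Nat.mul_le_mul (Nat.mul_le_mul_right _ e2) hdiff.le
          · rw [← heq.1] at e6
            have h1 : ((r h * (d + 1) * (h - h') : ℕ) : ℝ) * p.coeff (d + 1) -
                ((n h - n h' : ℤ) : ℝ) =
                ((r h : ℝ) * ((d + 1) * h * p.coeff (d + 1)) - n h) -
                  ((r h : ℝ) * ((d + 1) * h' * p.coeff (d + 1)) - n h') := by
              push_cast [Nat.cast_sub hlt.le]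
              ring
            rw [h1]
            refine (abs_sub _ _).trans ((add_le_add e3 e6).trans ?_)
            have h2 : (B : ℝ) ≤ ((C' * (d + 1) * B : ℕ) : ℝ) := by exact_mod_cast hBC
            rw [← add_div, div_le_div_iff₀ (by positivity) hHr]
            nlinarith
        rcases lt_or_gt_of_ne hne with hlt | hlt
        · exact main h' h hh' hh hlt heq.symm
        · exact main h h' hh hh' hlt heq

end Pool.Agent.Lib.MP_715eb0_an.SI
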