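import Pool.Agent.Lib.MP_715eb0_an.NC.Final
import Pool.Agent.Lib.MP_715eb0_an.SI.WEY
import Pool.Agent.Lib.MP_715eb0_an.SI.COV
import Pool.Agent.Lib.MP_715eb0_an.SI.EXP
import Pool.Agent.Lib.MP_715eb0_an.SI.AVG
import Pool.Agent.Lib.MP_715eb0_an.SI.TRG
import Pool.Agent.Lib.MP_715eb0_an.SI.MOM
import Pool.Agent.Lib.MP_715eb0_an.SI.FIN

/-!
# MP_715eb0_an: equidistribution along short polynomial progressions
-/

namespace Pool.Agent.Lib.MP_715eb0_an.SI

/-- Finitely supported ergodic `×2, ×3`-invariant measures do not concentrate on arcs (orbit version). -/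
theorem arc : NC.SpecARC :=
  NC.specARC (NC.specCNT (NC.specEXT (NC.specVAN (NC.specVAA Pool.Agent.Lib.MP_d0e829_nt.SS.sub))
    (NC.specBUD NC.specPIG NC.specRDU)))

/-- Equidistribution for most points of short polynomial progressions. -/
theorem main : SpecFIN := specFIN (specMOM arc (specCOV specWEY) specEXP specAVG) specTRG

end Pool.Agent.Lib.MP_715eb0_an.SI
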