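import Pool.Agent.Lib.MP_715eb0_an.NC.Spec

/-!
# MP_715eb0_an: equidistribution along short polynomial progressions (specifications of the modules)

THEOREM. Let `P` be a nonconstant integral polynomial, `f` a continuous real function on `ℝ/ℤ` and
`ε, η > 0`. There is `q₀` such that for every `x` in `ℝ/ℤ` of order `q ≥ q₀` prime to `6`, every `y`
with `q y = 0` and every `H ≥ q ^ η`: for all but at most `ε H` of the integers `0 ≤ k < H` the
ergodic finitely supported `x2, x3`-invariant measure with the atom `y + P(k) x` satisfies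
`|∫ f dμ - ∫ f dλ| ≤ ε`.

(For `P = X`, `x = 1/q`: for all but `ε H` of the `a` in every interval of `H ≥ q ^ η` consecutive
integers, the orbit of `a/q` is equidistributed up to `ε`, for arbitrarily small `η`.)

The proof: no concentration at polynomial scales (`NC.SpecARC`, proved in `NC/ARC.lean` from the
Subspace theorem) and the large values of Weyl sums.

All modules are independent: file `Pool/Agent/Lib/MP_715eb0_an/SI/XXX.lean`, import
`Pool.Agent.Lib.MP_715eb0_an.SI.Spec`, namespace `Pool.Agent.Lib.MP_715eb0_an.SI`, theorem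
`specXXX (hYYY : SpecYYY) .. : SpecXXX` with the hypotheses in the order of USES, own lemmas in a
namespace `XXXM`.
-/

set_option autoImplicit false

open MeasureTheory Finset Polynomial

namespace Pool.Agent.Lib.MP_715eb0_an.SI

/-- `e(t) = exp (2 π i t)`. -/
noncomputable def e (t : ℝ) : ℂ := Complex.exp (2 * Real.pi * Complex.I * t)

/-- WEY (220 lines). USES nothing. Large values of Weyl sums.
PROOF. Induction on `d`. `d = 1`: `p = α X + β`, a geometric sum: `|Σ e(α k + β)| ≤ 1 / (2 ‖α‖)`,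
`‖α‖` the distance to the nearest integer `n` (`|1 - e(α)| = 2 |sin π α| ≥ 4 ‖α‖`, the sum is
`(e(α H) - 1) / (e(α) - 1)`), so `‖α‖ ≤ 1 / (2 κ H)` (or `α = n`): `r = 1`, `C ≥ 1 / (2 κ)`.
`d → d + 1`. Let `C'` be the constant for `d`, `κ' = κ² / 4`, and let
`S_h = Σ_{l < H - h} e(p(l + h) - p(l))` (`0 ≤ h < H`). Then
`|Σ_{k < H} e(p(k))|² = Σ_{k, l} e(p(k) - p(l)) ≤ 2 Σ_{h < H} |S_h|`. Let `G` be the set of the
`h < H` with `|S_h| ≥ κ' H`; `κ² H² ≤ 2 (|G| H + H κ' H)`, so `|G| ≥ κ² H / 4`. For `h` in `G`,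
`H - h ≥ |S_h| ≥ κ' H` and `|S_h| ≥ κ' (H - h)`; the polynomial `p(X + h) - p(X)` has degree `≤ d`
and coefficient `(d + 1) h α` at `X^d`, `α = p.coeff (d + 1)` (`Polynomial.taylor_coeff`,
`hasseDeriv`, or the binomial theorem), so there are `1 ≤ r_h ≤ C'`, `n_h` with
`|r_h (d + 1) h α - n_h| ≤ C' / (H - h) ≤ 4 C' / (κ² H)`. Let `B ≥ 8 C' / κ²` be an integer. If
`H > 8 C' / κ²`, then `|G| ≥ κ² H / 4 > C' (H / B + 1)`, so two different `h > h'` in `G` have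
`r_h = r_h' = r` and `⌊h / B⌋ = ⌊h' / B⌋`, so `1 ≤ h - h' < B`, and with `R = r (d + 1) (h - h')`,
`n = n_h - n_h'`: `|R α - n| ≤ 8 C' / (κ² H)`, `1 ≤ R ≤ C' (d + 1) B`. If `H ≤ 8 C' / κ²` take
`R = 1` and `n` the nearest integer: `|α - n| ≤ 1 / 2 ≤ 4 C' / (κ² H)`. -/
def SpecWEY : Prop :=
  ∀ (d : ℕ) (κ : ℝ), 1 ≤ d → 0 < κ → ∃ C : ℕ, 1 ≤ C ∧ ∀ (p : ℝ[X]) (H : ℕ), p.natDegree ≤ d →
    1 ≤ H → κ * H ≤ ‖∑ k ∈ range H, e (p.eval (k : ℝ))‖ →
    ∃ (r : ℕ) (n : ℤ), 1 ≤ r ∧ r ≤ C ∧ |(r : ℝ) * p.coeff d - n| ≤ (C : ℝ) / H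

/-- COV (100 lines). USES WEY. The large values of the Weyl sums of an integral polynomial are
covered by finitely many arcs of radius `C / H`.
PROOF. `d = P.natDegree`, `c = P.leadingCoeff ≠ 0`, `C` from WEY. `Y` is the set of the classes of
`j / (r |c|)`, `1 ≤ r ≤ C`, `0 ≤ j < r |c|`. Let `θ` be the class of `t`, `p = t P` (real
polynomial): `fourier (P k) θ = e(p(k))` (`fourier_coe_apply`), `p.coeff d = t c`. WEY gives `r`, `n`
with `|r c t - n| ≤ C / H`; divide by `r |c| ≥ 1`: `|t - n / (r c)| ≤ C / H`, and the class of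
`n / (r c)` is in `Y` (`j = ± n` modulo `r |c|`); `dist θ y ≤ |t - n / (r c)|`. -/
def SpecCOV : Prop :=
  ∀ (P : ℤ[X]) (κ : ℝ), 1 ≤ P.natDegree → 0 < κ → ∃ (Y : Finset T) (C : ℝ), 0 < C ∧
    ∀ (θ : T) (H : ℕ), 1 ≤ H → κ * H ≤ ‖∑ k ∈ range H, (fourier (P.eval (k : ℤ)) θ : ℂ)‖ →
      ∃ y ∈ Y, dist θ y ≤ C / H

/-- EXP (50 lines). USES nothing. Opening the square.
PROOF. `‖z‖² = z z̄`; the left hand side is
`Σ_{p, p'} a_p ā_{p'} Σ_k fourier (s k) (θ p) conj (fourier (s k) (θ p'))` and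
`fourier n x * conj (fourier n x') = fourier n (x - x')`. -/
def SpecEXP : Prop :=
  ∀ (ι : Type) (W : Finset ι) (θ : ι → T) (a : ι → ℂ) (s : ℕ → ℤ) (H : ℕ),
    (∀ p ∈ W, ‖a p‖ ≤ 1) →
    ∑ k ∈ range H, ‖∑ p ∈ W, a p * (fourier (s k) (θ p) : ℂ)‖ ^ 2 ≤
      ∑ p ∈ W, ∑ p' ∈ W, ‖∑ k ∈ range H, (fourier (s k) (θ p - θ p') : ℂ)‖

/-- AVG (130 lines). USES nothing. The points `r z`, `r` in the group `R q` of the residues
`2^i 3^j mod q`, hit every point of the orbit of `z` equally often.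
PROOF. `r • z` depends only on `r` modulo `q`. The set `{r • z : r ∈ R q}` is `Orb z` (`mem_Orb`,
`mem_R`). For `w = s • z`, `s ∈ R q`, the map `r ↦ r s % q` is a bijection of `R q` (it maps `R q`
into itself and is injective because `s` is prime to `q`) and maps `{r : r • z = z}` onto
`{r : r • z = w}` (into: `r s • z = s • z = w`; onto: if `r' = r s % q` with `r' • z = w`, then
`s • (r • z) = s • z`, and `s` is prime to the order of `z`, so `r • z = z`). So all fibres have the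
same number `n₀` of elements, `cnt q = n₀ |Orb z|` and `Σ_{r ∈ R q} F (r • z) = n₀ Σ_{w ∈ Orb z} F w`
(`Finset.sum_fiberwise_of_maps_to`, `card_eq_sum_card_fiberwise`). -/
def SpecAVG : Prop :=
  ∀ q : ℕ, q.Coprime 6 → ∀ z : T, q • z = 0 → ∀ F : T → ℂ,
    ((Orb z).card : ℂ) * ∑ r ∈ R q, F (r • z) = (cnt q : ℂ) * ∑ w ∈ Orb z, F w

/-- TRG (90 lines). USES nothing. Finitely many Fourier coefficients.
PROOF. By `span_fourier_closure_eq_top` (Stone-Weierstrass) there is a finite linear combination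
`g = Σ_{|m| ≤ M} c_m fourier m` with `‖f - g‖ ≤ ε / 4` (`f` as a complex function). `∫ g dμ =
c_0 + Σ_{m ≠ 0} c_m ∫ fourier m dμ`, the same for the Lebesgue measure, where the integrals are `0`
(`integral_fourier` in `AlmostAll`). So the difference is at most `ε/2 + Σ |c_m| τ ≤ ε` if
`τ = ε / (2 (1 + Σ |c_m|))`. (Compare `tendsto_of_good` in `AlmostAll`.) -/
def SpecTRG : Prop :=
  ∀ (f : C(T, ℝ)) (ε : ℝ), 0 < ε → ∃ (M : ℕ) (τ : ℝ), 0 < τ ∧
    ∀ μ : Measure T, IsProbabilityMeasure μ →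
      (∀ m : ℤ, m ≠ 0 → |m| ≤ M → ‖∫ x, (fourier m x : ℂ) ∂μ‖ ≤ τ) →
      |∫ x, f x ∂μ - ∫ t in (0 : ℝ)..1, f ((t : ℝ) : T)| ≤ ε

/-- MOM (180 lines). USES `NC.SpecARC`, COV, EXP, AVG (in this order). The second moment.
PROOF. `q` the order of `x`, `z_k = y + P(k) • x`, `q • z_k = 0`, `N = cnt q`. By `integral_U` and
AVG `∫ fourier m dU(Orb z_k) = (1/N) Σ_{r ∈ R q} fourier m (r • z_k) =
(1/N) Σ_r fourier m (r • y) * fourier (P k) (r • (m • x))`. EXP with `W = R q`,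
`θ_r = r • (m • x)`, `a_r = fourier m (r • y)`: the left hand side is
`≤ N⁻² Σ_{r, r'} |E(θ_r - θ_r')|`, `E(θ) = Σ_{k < H} fourier (P k) θ`. Let `Y, C` be those of COV for
`κ = δ / 2`. Fix `r'`. The `r` with `|E(θ_r - θ_r')| < κ H` contribute at most `N κ H`; for the others
`θ_r` is within `C / H` of `θ_r' + y'` with `y'` in `Y`. `x' = m • x` has order `d ≥ q / |m|`, `d ∣ q`,
`C / H ≤ C q^(-η) ≤ q^(-η/2) ≤ d^(-η/2)` for large `q`; AVG for `x'` (`F` an indicator function) and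
ARC (`ε' = δ / (2 |Y| + 2)`, `η / 2`) give for every centre `c`:
`#{r ∈ R q : dist (r • x') c ≤ C / H} = N #{w ∈ Orb x' : dist w c ≤ C / H} / |Orb x'| ≤ ε' N`. So
these `r` contribute at most `|Y| ε' N H`. Total `≤ N⁻² N (N κ H + |Y| ε' N H) ≤ δ H`. -/
def SpecMOM : Prop :=
  ∀ (P : ℤ[X]) (m : ℤ) (δ η : ℝ), 1 ≤ P.natDegree → m ≠ 0 → 0 < δ → 0 < η → ∃ q₀ : ℕ,
    ∀ x y : T, (addOrderOf x).Coprime 6 → q₀ ≤ addOrderOf x → addOrderOf x • y = 0 →
      ∀ H : ℕ, (addOrderOf x : ℝ) ^ η ≤ H →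
        ∑ k ∈ range H, ‖∫ t, (fourier m t : ℂ) ∂(U (Orb (y + P.eval (k : ℤ) • x)))‖ ^ 2 ≤ δ * H

/-- FIN (130 lines). USES MOM, TRG. THE THEOREM.
PROOF. `M, τ` from TRG for `f, ε`; `q₀` the maximum of those of MOM for the `m` with `0 < |m| ≤ M`
and `δ = ε τ² / (2 M + 1)`. If `k` is in the set, `z_k = y + P(k) • x` and `μ` is as there, then
`μ = U (Orb x₀)` (`classify`), `z_k ∈ Orb x₀` (`U_singleton`), `Orb z_k = Orb x₀` (`Orb_eq`), so
`μ = U (Orb z_k)`, and by TRG there is `m`, `0 < |m| ≤ M`, with `‖∫ fourier m dU(Orb z_k)‖ > τ`. So the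
number of these `k` is at most `Σ_m Σ_{k < H} ‖..‖² / τ² ≤ 2 M δ H / τ² ≤ ε H`. -/
def SpecFIN : Prop :=
  ∀ (P : ℤ[X]) (f : C(T, ℝ)) (ε η : ℝ), 1 ≤ P.natDegree → 0 < ε → 0 < η → ∃ q₀ : ℕ,
    ∀ x y : T, (addOrderOf x).Coprime 6 → q₀ ≤ addOrderOf x → addOrderOf x • y = 0 →
      ∀ H : ℕ, (addOrderOf x : ℝ) ^ η ≤ H →
        (Set.ncard {k : ℕ | k < H ∧ ∃ μ : Measure T, Erg μ ∧ μ {y + P.eval (k : ℤ) • x} ≠ 0 ∧
          ε < |∫ t, f t ∂μ - ∫ t in (0 : ℝ)..1, f ((t : ℝ) : T)|} : ℝ) ≤ ε * H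

end Pool.Agent.Lib.MP_715eb0_an.SI
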